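import Pool.Agent.H15.QX.SepB

/-!
# CMV : Mayer-Vietoris for the charts: `RX ∩ RV = k`, `RW = RX + RV + k u⁻¹ w`
-/

set_option autoImplicit false

namespace H36.QX

open H36.NX

variable {k : Type} [Field k] {t : k} {R : Type} [CommRing R] [Algebra k R]
  {F : Type} [Field F] [Algebra k F] (C : QRing k t R) (j : R →ₐ[k] F)
  [CharP k 2] (ht : t ≠ 0) (ht1 : t + 1 ≠ 0)

include ht ht1

/-- the sections on both charts are the sections of the piece -/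
theorem mv_inf (s : Pc) (n : ℤ) {x : F} (hx : x ∈ (secU C).S j s n)
    (hx' : x ∈ (secV C).S j s n) : ∃ r ∈ C.pc s n, j r = x :=
  (Cov_UV C ht ht1).inf j s n hx hx'

/-- a section on the intersection is a sum -/
theorem mv_sup (s : Pc) (n : ℤ) {x : F} (hx : x ∈ (secW C).S j s n) :
    ∃ a ∈ (secU C).S j s n, ∃ b ∈ (secV C).S j s n, x = a + b :=
  (Cov_UV C ht ht1).sup j s n hx

/-- `RX ∩ RV = k` -/
theorem mem_k (hj : Function.Injective j) {x : F} (hx : x ∈ RX C j) (hv : x ∈ RV C j) :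
    ∃ c : k, x = algebraMap k F c := by
  have h1 : x ∈ (secV C).S j Pc.X 0 := hac_V C j 0 ((secV C).S_le j Pc.Y 0 hv)
  have h2 : x ∈ (secU C).S j Pc.Y 0 := hac_U C j 0 ((secU C).S_le j Pc.X 0 hx)
  obtain ⟨r, hr, e1⟩ := mv_inf C j ht ht1 Pc.X 0 hx h1
  obtain ⟨r', hr', e2⟩ := mv_inf C j ht ht1 Pc.Y 0 h2 hv
  have h3 : r = r' := hj (e1.trans e2.symm)
  have hB : r ∈ C.B 0 := Submodule.mem_inf.2 ⟨hr, by rw [h3]; exact hr'⟩
  rw [C.B_zero, Submodule.mem_span_singleton] at hB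
  obtain ⟨c, rfl⟩ := hB
  exact ⟨c, by rw [← e1, map_smul, map_one, Algebra.algebraMap_eq_smul_one]⟩

/-- `RW = RX + RV + k u⁻¹ w` -/
theorem exists_sum {x : F} (hx : x ∈ RW C j) : ∃ a ∈ RX C j, ∃ b ∈ RV C j, ∃ c : k,
    x = a + b + c • j (C.bas (-1, 1)) := by
  obtain ⟨a, ha, b, hb, e1⟩ := mv_sup C j ht ht1 Pc.X 0 ((mem_RW_all C j Pc.X 0 x).1 hx)
  have hb1 : b ∈ RW C j := (secU C).S_le_mul_right j (secV C) Pc.X 0 hb
  obtain ⟨a', ha', b', hb', e2⟩ := mv_sup C j ht ht1 Pc.Y 0 ((mem_RW_all C j Pc.Y 0 b).1 hb1)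
  have ha1 : a' ∈ (secV C).S j Pc.R 0 := by
    have e : a' = b - b' := by rw [e2]; ring
    rw [e]
    exact Submodule.sub_mem _ ((secV C).S_le j Pc.X 0 hb) ((secV C).S_le j Pc.Y 0 hb')
  obtain ⟨r, _, e3⟩ := mv_inf C j ht ht1 Pc.R 0 ((secU C).S_le j Pc.Y 0 ha') ha1
  have hr : r ∈ C.X ⊔ C.Y 0 ⊔ Submodule.span k {C.bas (-1, 1)} := by
    rw [C.top_eq_zero]; exact Submodule.mem_top
  obtain ⟨r1, hr1, r2, hr2, h12⟩ := Submodule.mem_sup.1 hr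
  obtain ⟨r3, hr3, r4, hr4, h34⟩ := Submodule.mem_sup.1 hr1
  obtain ⟨c, hc⟩ := Submodule.mem_span_singleton.1 hr2
  refine ⟨a + j r3, Submodule.add_mem _ ha ((secU C).j_mem j Pc.X hr3), j r4 + b',
    Submodule.add_mem _ ((secV C).j_mem j Pc.Y hr4) hb', c, ?_⟩
  rw [e1, e2, ← e3, ← h12, ← h34, ← hc, map_add, map_add, map_smul]
  ring

end H36.QX
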