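import Pool.Agent.H15.QX.CSec
import Pool.Agent.H36.QX.Dom

/-!
# CRing : the rings of the two charts `x q ≠ 0`, `y (z + x^2) ≠ 0` and of their intersection

`RX = X[1/Q]`, `RV = Y_0[1/om]`, `RW = R[1/(Q om)]`: `RX ∩ RV = k`, `RW = RX + RV + k u⁻¹ w`;
`RX` and `RW` are étale over `k[u]`, `RV` over `k[w']`.
-/

set_option autoImplicit false

open scoped TensorProduct

namespace H36.QX

open H36.NX

variable {k : Type} [Field k] {t : k} {R : Type} [CommRing R] [Algebra k R]
  {F : Type} [Field F] [Algebra k F]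

section

variable (C : QRing k t R)

/-- the section of the intersection of the charts -/
noncomputable def secW : Sec C := (secU C).mul (secV C)

theorem secU_τ : (secU C).τ = C.Q := rfl
theorem secU_d : (secU C).d = 3 := rfl
theorem secV_τ : (secV C).τ = (C.u : R) * (C.w + 1) := rfl
theorem secV_d : (secV C).d = 3 := rfl
theorem secW_τ : (secW C).τ = C.Q * ((C.u : R) * (C.w + 1)) := rfl
theorem secW_d : (secW C).d = 6 := rfl

end

namespace QRing

/-- coefficients of the equation of `v` over `k[w']` -/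
theorem rel_v4 [CharP k 2] (C : QRing k t R) :
    (algebraMap k R (t ^ 3 + t ^ 2 + t)) * C.v ^ 4 + C.v ^ 3
      + (algebraMap k R t * C.wp + algebraMap k R t) * C.v ^ 2 + C.wp * C.v
      + (C.wp ^ 2 + C.wp + algebraMap k R (t + 1)) = 0 := by
  have h2 : (2 : R) = 0 := two_zero k R
  have hq := C.qp_eq
  have hr := C.rel_p
  rw [hq] at hr
  simp only [map_add, map_pow, map_one] at hr ⊢
  generalize algebraMap k R t = T at *
  generalize C.wp = w at *
  generalize C.v = v at *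
  linear_combination (-1 : R) * hr + (w ^ 2 - (T + 1) * (v + T * v ^ 2 + T * v ^ 3) - v ^ 2) * h2

theorem transcendental_ju (C : QRing k t R) (j : R →ₐ[k] F) (hj : Function.Injective j) :
    Transcendental k (j (C.u : R)) := by
  intro h
  exact C.transcendental_u ((isAlgebraic_algHom_iff j hj).1 h)

theorem transcendental_jwp [CharP k 2] (C : QRing k t R) (j : R →ₐ[k] F)
    (hj : Function.Injective j) : Transcendental k (j C.wp) := by
  intro halg
  let A := algebraicClosure k F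
  let w : A := ⟨j C.wp, mem_algebraicClosure_iff.2 halg⟩
  let P : Polynomial A := Polynomial.C (algebraMap k A (t ^ 3 + t ^ 2 + t)) * Polynomial.X ^ 4
    + Polynomial.X ^ 3 + Polynomial.C (algebraMap k A t * w + algebraMap k A t) * Polynomial.X ^ 2
    + Polynomial.C w * Polynomial.X + Polynomial.C (w ^ 2 + w + algebraMap k A (t + 1))
  have hP0 : ∀ a4 a2 a1 a0 : A, Polynomial.C a4 * Polynomial.X ^ 4 + Polynomial.X ^ 3
      + Polynomial.C a2 * Polynomial.X ^ 2 + Polynomial.C a1 * Polynomial.X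
      + Polynomial.C a0 ≠ 0 := by
    intro a4 a2 a1 a0 h
    have h1 := congrArg (fun p => p.coeff 3) h
    simp [Polynomial.coeff_X, Polynomial.coeff_C, Polynomial.coeff_X_pow] at h1
  have hP : P ≠ 0 := hP0 _ _ _ _
  have hv : Polynomial.aeval (j C.v) P = 0 := by
    have h := congrArg j C.rel_v4
    simp only [map_add, map_mul, map_pow, AlgHom.commutes, map_zero] at h
    have e1 : ∀ c : k, algebraMap A F (algebraMap k A c) = algebraMap k F c := fun c => rfl
    have e2 : algebraMap A F w = j C.wp := rfl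
    simp only [P, map_add, map_mul, map_pow, Polynomial.aeval_C, Polynomial.aeval_X, e1, e2]
    exact h
  have h1 : IsAlgebraic A (j C.v) := ⟨P, hP, hv⟩
  have h2 : IsAlgebraic k (j C.v) := h1.restrictScalars k
  have h3 : IsAlgebraic k (j (C.u : R)) := by
    have e : j (C.u : R) = (j C.v)⁻¹ := by
      refine eq_inv_of_mul_eq_one_left ?_
      rw [← map_mul, C.uv, map_one]
    rw [e]
    exact h2.inv
  exact C.transcendental_ju j hj h3

end QRing

/-! ### the condition `hac` -/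

section

variable (C : QRing k t R) (j : R →ₐ[k] F)

theorem pow_mem_Y {r : R} {n : ℤ} (h : r ∈ C.Y n) (m : ℕ) : r ^ m ∈ C.Y (m * n) :=
  pow_mem_pc C Pc.Y h m

theorem pow_mem_X {r : R} (h : r ∈ C.X) (m : ℕ) : r ^ m ∈ C.X :=
  (subX C).pow_mem (show r ∈ subX C from h) m

theorem w1_mem_X : C.w + 1 ∈ C.X := C.X.add_mem C.w_mem_X C.one_mem_X

theorem w1_mem_Y : C.w + 1 ∈ C.Y 2 :=
  (C.Y 2).add_mem (C.w_mem_Y le_rfl) (C.one_mem_Y (by norm_num))

/-- a section of `Y`-degree `< d` makes the localisation of the overlap equal to the one of the piece `Y` -/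
private theorem hac_Y (σ : Sec C) (e : ℤ) (he : σ.τ ∈ C.Y e) (hed : e + 1 ≤ σ.d) (n : ℤ) :
    σ.S j Pc.R n ≤ σ.S j Pc.Y n := by
  rintro x ⟨m, r, _, hx⟩
  obtain ⟨N, hN⟩ := C.exists_mem_Y r
  refine ⟨m + (N - n).toNat, σ.τ ^ (N - n).toNat * r, ?_, ?_⟩
  · have h1 := C.mul_mem_Y (pow_mem_Y C he (N - n).toNat) hN
    refine C.Y_mono ?_ h1
    have h2 := Int.self_le_toNat (N - n)
    have h3 : (0 : ℤ) ≤ ((N - n).toNat : ℤ) := Int.natCast_nonneg _
    have h4 : (0 : ℤ) ≤ (m : ℤ) * (σ.d : ℤ) := by positivity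
    have h5 : (((N - n).toNat : ℕ) : ℤ) * (e + 1) ≤ (((N - n).toNat : ℕ) : ℤ) * (σ.d : ℤ) :=
      mul_le_mul_of_nonneg_left hed h3
    push_cast
    linarith
  · rw [map_mul, map_pow, ← hx, pow_add]
    ring

/-- a section divisible by `u` makes the localisation of the overlap equal to the one of the piece `X` -/
private theorem hac_X (σ : Sec C) (s : R) (hs : s ∈ C.X) (he : σ.τ = (C.u : R) * s) (n : ℤ) :
    σ.S j Pc.R n ≤ σ.S j Pc.X n := by
  rintro x ⟨m, r, _, hx⟩
  obtain ⟨N, hN⟩ := C.exists_upow_mul_mem_X r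
  refine ⟨m + N, σ.τ ^ N * r, ?_, ?_⟩
  · have h1 := C.mul_mem_X (pow_mem_X C hs N) hN
    have e1 : σ.τ ^ N * r = s ^ N * ((C.u : R) ^ N * r) := by
      rw [he, mul_pow]; ring
    rw [e1]
    exact h1
  · rw [map_mul, map_pow, ← hx, pow_add]
    ring

theorem hac_U (n : ℤ) : (secU C).S j Pc.R n ≤ (secU C).S j Pc.Y n :=
  hac_Y C j (secU C) 2 (C.Q_mem_Y le_rfl) (by rw [secU_d]; norm_num) n

theorem hac_V (n : ℤ) : (secV C).S j Pc.R n ≤ (secV C).S j Pc.X n :=
  hac_X C j (secV C) (C.w + 1) (w1_mem_X C) rfl n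

theorem hac_W (n : ℤ) : (secW C).S j Pc.R n ≤ (secW C).S j Pc.Y n := by
  refine hac_Y C j (secW C) 5 ?_ (by rw [secW_d]; norm_num) n
  have hu : (C.u : R) ∈ C.Y 1 := by simpa using C.upow_mem_Y (le_refl (1 : ℤ))
  have h := C.mul_mem_Y (C.Q_mem_Y (le_refl (2 : ℤ))) (C.mul_mem_Y hu (w1_mem_Y C))
  exact h

theorem hac_W' (n : ℤ) : (secW C).S j Pc.R n ≤ (secW C).S j Pc.X n := by
  refine hac_X C j (secW C) (C.Q * (C.w + 1)) (C.mul_mem_X C.Q_mem_X (w1_mem_X C)) ?_ n
  rw [secW_τ]; ring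

/-! ### the rings -/

/-- functions on the chart `x q ≠ 0` -/
noncomputable def RX : Subalgebra k F := (secU C).B j Pc.X
/-- functions on the chart `y (z + x^2) ≠ 0` -/
noncomputable def RV : Subalgebra k F := (secV C).B j Pc.Y
/-- functions on the intersection -/
noncomputable def RW : Subalgebra k F := (secW C).B j Pc.X

theorem mem_RX (n : ℤ) (x : F) : x ∈ RX C j ↔ x ∈ (secU C).S j Pc.X n := Iff.rfl
theorem mem_RV (x : F) : x ∈ RV C j ↔ x ∈ (secV C).S j Pc.Y 0 := Iff.rfl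
theorem mem_RW (n : ℤ) (x : F) : x ∈ RW C j ↔ x ∈ (secW C).S j Pc.X n := Iff.rfl

theorem mem_RW_R (n : ℤ) (x : F) : x ∈ RW C j ↔ x ∈ (secW C).S j Pc.R n :=
  ⟨fun h => (secW C).S_le j Pc.X n h, fun h => hac_W' C j n h⟩

theorem mem_RW_Y (n : ℤ) (x : F) : x ∈ RW C j ↔ x ∈ (secW C).S j Pc.Y n :=
  ⟨fun h => hac_W C j n ((secW C).S_le j Pc.X n h),
    fun h => hac_W' C j n ((secW C).S_le j Pc.Y n h)⟩

theorem mem_RW_all (s : Pc) (n : ℤ) (x : F) : x ∈ RW C j ↔ x ∈ (secW C).S j s n := by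
  cases s with
  | X => exact Iff.rfl
  | Y => exact mem_RW_Y C j n x
  | R => exact mem_RW_R C j n x

theorem RX_le_RW : RX C j ≤ RW C j := fun _ hx => (secU C).S_le_mul_left j (secV C) Pc.X 0 hx

theorem RV_le_RW : RV C j ≤ RW C j := fun x hx =>
  (mem_RW_Y C j 0 x).2 ((secU C).S_le_mul_right j (secV C) Pc.Y 0 hx)

variable (hj : Function.Injective j)

include hj

theorem jQ_ne : j C.Q ≠ 0 := by
  intro h
  have h1 : C.Q = 0 := hj (by rw [h, map_zero])
  have h2 := C.Q_eq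
  rw [h1] at h2
  have h3 : IsAlgebraic k (C.u : R) := by
    refine ⟨Polynomial.X ^ 2 + Polynomial.X + Polynomial.C t, ?_, ?_⟩
    · intro h4
      have h5 := congrArg (fun p => p.coeff 2) h4
      simp [Polynomial.coeff_X, Polynomial.coeff_C] at h5
    · simp only [map_add, map_pow, Polynomial.aeval_X, Polynomial.aeval_C]
      exact h2.symm
  exact C.transcendental_u h3

theorem jw1_ne : j (C.w + 1) ≠ 0 := by
  intro h
  have h1 : C.w + 1 = 0 := hj (by rw [h, map_zero])
  have h2 : C.bas (0, 1) + C.bas (0, 0) = 0 := by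
    rw [C.bas_eq, C.bas_eq]
    simpa using h1
  have h3 := congrArg (fun x => C.bas.repr x (0, 1)) h2
  simp at h3

theorem jτV_ne : j ((C.u : R) * (C.w + 1)) ≠ 0 := by
  rw [map_mul]
  exact mul_ne_zero (Sec.j_u_ne j) (jw1_ne C j hj)

theorem jτW_ne : j (secW C).τ ≠ 0 := by
  rw [secW_τ, map_mul]
  exact mul_ne_zero (jQ_ne C j hj) (jτV_ne C j hj)

theorem jom_ne : j C.om ≠ 0 := by
  have h := jτV_ne C j hj
  rw [C.tau_eq, map_mul] at h
  exact right_ne_zero_of_mul h

end

end H36.QX
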