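import Pool.Agent.H15.QX.Sep

/-!
# SepA : separability idempotents of the three chart rings (abstract part, characteristic two)

`u, w` with `w^2 = Q w + (t + 1) Q^2 + Q`, `Q = u^2 + u + t`.
* over `k[u]`, `Q` invertible: `e = Q₁⁻¹ (w₁ + w₂ + Q₁)`;
* over `k[v]`, `v = 1 / u`, with `w' = w v^2`, `q' = 1 + v + t v^2` invertible: `e = q'₁⁻¹ (w'₁ + w'₂ + q'₁)`;
* over `k[w]`, `w + 1` invertible: `e = (w₁ + 1)⁻¹ ((t + 1) (u₁ + u₂) (u₁ + u₂ + 1)^2 + (w₁ + 1) (u₁ + u₂ + 1))`.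
-/

set_option autoImplicit false

open scoped TensorProduct

namespace H36.QX

variable {k : Type} [Field k] {B : Type} [CommRing B] [Algebra k B]

/-- the elements good for `e`, as a subalgebra -/
def goodSub (c : B) (e : B ⊗[k] B) : Subalgebra k B where
  carrier := {b | ∃ z : B ⊗[k] B,
    (b ⊗ₜ[k] (1 : B) - (1 : B) ⊗ₜ[k] b) * e = (c ⊗ₜ[k] (1 : B) - (1 : B) ⊗ₜ[k] c) * z}
  algebraMap_mem' := fun r => by
    refine ⟨0, ?_⟩
    have : (algebraMap k B r) ⊗ₜ[k] (1 : B) = (1 : B) ⊗ₜ[k] (algebraMap k B r) := by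
      rw [Algebra.algebraMap_eq_smul_one, TensorProduct.smul_tmul]
    rw [this, sub_self, zero_mul, mul_zero]
  add_mem' := fun {x y} hx hy => by
    obtain ⟨z, hz⟩ := hx
    obtain ⟨z', hz'⟩ := hy
    refine ⟨z + z', ?_⟩
    rw [mul_add, ← hz, ← hz', TensorProduct.add_tmul, TensorProduct.tmul_add]
    ring
  mul_mem' := fun {x y} hx hy => by
    obtain ⟨z, hz⟩ := hx
    obtain ⟨z', hz'⟩ := hy
    refine ⟨(x ⊗ₜ[k] (1 : B)) * z' + ((1 : B) ⊗ₜ[k] y) * z, ?_⟩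
    have e1 : (x * y) ⊗ₜ[k] (1 : B) = (x ⊗ₜ[k] (1 : B)) * (y ⊗ₜ[k] (1 : B)) := by
      rw [Algebra.TensorProduct.tmul_mul_tmul, one_mul]
    have e2 : (1 : B) ⊗ₜ[k] (x * y) = ((1 : B) ⊗ₜ[k] x) * ((1 : B) ⊗ₜ[k] y) := by
      rw [Algebra.TensorProduct.tmul_mul_tmul, one_mul]
    rw [e1, e2]
    linear_combination (x ⊗ₜ[k] (1 : B)) * hz' + ((1 : B) ⊗ₜ[k] y) * hz

theorem self_mem_goodSub (c : B) (e : B ⊗[k] B) : c ∈ goodSub c e := ⟨e, rfl⟩

theorem inv_mem_goodSub (c : B) (e : B ⊗[k] B) (b b' : B) (hb : b * b' = 1)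
    (h : b ∈ goodSub c e) : b' ∈ goodSub c e :=
  sepOver_inv k B c e b b' hb h

/-- first embedding -/
noncomputable def L1 : B →ₐ[k] B ⊗[k] B := Algebra.TensorProduct.includeLeft
/-- second embedding -/
noncomputable def L2 : B →ₐ[k] B ⊗[k] B := Algebra.TensorProduct.includeRight

theorem L1_apply (b : B) : L1 (k := k) b = b ⊗ₜ[k] (1 : B) := rfl
theorem L2_apply (b : B) : L2 (k := k) b = (1 : B) ⊗ₜ[k] b := rfl

theorem lmul_L1 (b : B) : Algebra.TensorProduct.lmul' (S := B) k (L1 (k := k) b) = b := by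
  rw [L1_apply]; simp
theorem lmul_L2 (b : B) : Algebra.TensorProduct.lmul' (S := B) k (L2 (k := k) b) = b := by
  rw [L2_apply]; simp

theorem two_zero (k : Type) [Field k] [CharP k 2] (B : Type) [CommRing B] [Algebra k B] :
    (2 : B) = 0 := by
  have h := congrArg (algebraMap k B) (CharP.cast_eq_zero k 2)
  rwa [map_natCast, map_zero, Nat.cast_ofNat] at h

/-- over `k[u]` -/
theorem sepA_u [CharP k 2] {t : k} (u w Q Q' : B)
    (hQ : Q = u ^ 2 + u + algebraMap k B t) (hQQ : Q * Q' = 1)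
    (rel : w ^ 2 = Q * w + algebraMap k B (t + 1) * Q ^ 2 + Q) :
    ∃ e : B ⊗[k] B, Algebra.TensorProduct.lmul' (S := B) k e = 1 ∧ w ∈ goodSub u e := by
  have h2 : (2 : B) = 0 := two_zero k B
  have h2' : (2 : B ⊗[k] B) = 0 := two_zero k _
  refine ⟨L1 Q' * (L1 w + L2 w + L1 Q), ?_, ?_⟩
  · rw [map_mul, map_add, map_add, lmul_L1, lmul_L1, lmul_L1, lmul_L2]
    linear_combination hQQ + Q' * w * h2
  · refine ⟨L1 Q' * ((L1 u + L2 u + 1) * (algebraMap k (B ⊗[k] B) (t + 1) * (L1 Q + L2 Q) + 1 + L2 w)), ?_⟩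
    have r1 := congrArg (L1 (k := k)) rel
    have r2 := congrArg (L2 (k := k)) rel
    have q1 := congrArg (L1 (k := k)) hQ
    have q2 := congrArg (L2 (k := k)) hQ
    simp only [map_add, map_mul, map_pow, AlgHom.commutes, map_one] at r1 r2 q1 q2
    rw [← L1_apply, ← L2_apply, ← L1_apply, ← L2_apply]
    have q3 : L1 Q - L2 Q = (L1 (k := k) u - L2 u) * (L1 u + L2 u + 1) := by
      linear_combination q1 - q2
    have e1 : (L1 (k := k) w - L2 w) * (L1 w + L2 w + L1 Q)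
        = (L1 Q - L2 Q) * (algebraMap k (B ⊗[k] B) (t + 1) * (L1 Q + L2 Q) + 1 + L2 w) := by
      rw [map_add, map_one]
      linear_combination r1 - r2 + (L1 Q * L1 w - L1 Q * L2 w) * h2'
    rw [q3] at e1
    linear_combination L1 Q' * e1

/-- over `k[v]` -/
theorem sepA_v [CharP k 2] {t : k} (v w q q' : B)
    (hq : q = 1 + v + algebraMap k B t * v ^ 2) (hqq : q * q' = 1)
    (rel : w ^ 2 = q * w + algebraMap k B (t + 1) * q ^ 2 + q * v ^ 2) :
    ∃ e : B ⊗[k] B, Algebra.TensorProduct.lmul' (S := B) k e = 1 ∧ w ∈ goodSub v e := by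
  have h2 : (2 : B) = 0 := two_zero k B
  have h2' : (2 : B ⊗[k] B) = 0 := two_zero k _
  refine ⟨L1 q' * (L1 w + L2 w + L1 q), ?_, ?_⟩
  · rw [map_mul, map_add, map_add, lmul_L1, lmul_L1, lmul_L1, lmul_L2]
    linear_combination hqq + q' * w * h2
  · refine ⟨L1 q' * ((1 + algebraMap k (B ⊗[k] B) t * (L1 v + L2 v))
      * (algebraMap k (B ⊗[k] B) (t + 1) * (L1 q + L2 q) + L1 v ^ 2 + L2 w)
      + L2 q * (L1 v + L2 v)), ?_⟩
    have r1 := congrArg (L1 (k := k)) rel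
    have r2 := congrArg (L2 (k := k)) rel
    have q1 := congrArg (L1 (k := k)) hq
    have q2 := congrArg (L2 (k := k)) hq
    simp only [map_add, map_mul, map_pow, AlgHom.commutes, map_one] at r1 r2 q1 q2
    rw [← L1_apply, ← L2_apply, ← L1_apply, ← L2_apply]
    have q3 : L1 q - L2 q = (L1 (k := k) v - L2 v)
        * (1 + algebraMap k (B ⊗[k] B) t * (L1 v + L2 v)) := by
      linear_combination q1 - q2
    have e1 : (L1 (k := k) w - L2 w) * (L1 w + L2 w + L1 q)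
        = (L1 q - L2 q) * (algebraMap k (B ⊗[k] B) (t + 1) * (L1 q + L2 q) + L1 v ^ 2 + L2 w)
          + L2 q * (L1 v ^ 2 - L2 v ^ 2) := by
      rw [map_add, map_one]
      linear_combination r1 - r2 + (L1 q * L1 w - L1 q * L2 w) * h2'
    rw [q3] at e1
    linear_combination L1 q' * e1

/-- over `k[w']`, `w'` the coordinate on the chart `y ≠ 0`, derivative `s = w' + v^2` -/
theorem sepA_w' [CharP k 2] {t : k} (v w q s s' : B)
    (hq : q = 1 + v + algebraMap k B t * v ^ 2) (hs : s = w + v ^ 2) (hss : s * s' = 1)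
    (rel : w ^ 2 = q * w + algebraMap k B (t + 1) * q ^ 2 + q * v ^ 2) :
    ∃ e : B ⊗[k] B, Algebra.TensorProduct.lmul' (S := B) k e = 1 ∧ v ∈ goodSub w e := by
  have h2 : (2 : B) = 0 := two_zero k B
  have h2' : (2 : B ⊗[k] B) = 0 := two_zero k _
  refine ⟨L1 s' * ((1 + algebraMap k (B ⊗[k] B) t * (L1 v + L2 v)) * (L1 w + L1 v ^ 2)
    + algebraMap k (B ⊗[k] B) (t + 1) * (L1 v + L2 v)
      * (1 + algebraMap k (B ⊗[k] B) t * (L1 v + L2 v)) ^ 2
    + L2 q * (L1 v + L2 v)), ?_, ?_⟩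
  · simp only [map_mul, map_add, map_pow, lmul_L1, lmul_L2, map_one, AlgHom.commutes]
    linear_combination hss - s' * hs + (s' * algebraMap k B t * v * (w + v ^ 2)
      + s' * (algebraMap k B t + 1) * v * (1 + algebraMap k B t * (v + v)) ^ 2 + s' * q * v) * h2
  · refine ⟨L1 s' * (L1 w + L2 w + L2 q), ?_⟩
    have r1 := congrArg (L1 (k := k)) rel
    have r2 := congrArg (L2 (k := k)) rel
    have q1 := congrArg (L1 (k := k)) hq
    have q2 := congrArg (L2 (k := k)) hq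
    simp only [map_add, map_mul, map_pow, AlgHom.commutes, map_one] at r1 r2 q1 q2
    rw [← L1_apply, ← L2_apply, ← L1_apply, ← L2_apply, map_add, map_one]
    have q3 : L1 q - L2 q = (L1 (k := k) v - L2 v)
        * (1 + algebraMap k (B ⊗[k] B) t * (L1 v + L2 v)) := by
      linear_combination q1 - q2
    have e1 : (L1 q - L2 q) * (L1 (k := k) w + L1 v ^ 2)
        + (algebraMap k (B ⊗[k] B) t + 1) * (L1 q - L2 q) ^ 2 + L2 q * (L1 v ^ 2 - L2 v ^ 2)
        = (L1 w - L2 w) * (L1 w + L2 w + L2 q) := by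
      linear_combination r2 - r1 + ((algebraMap k (B ⊗[k] B) t + 1) * (L2 q ^ 2 - L1 q * L2 q)
        + L2 q * L2 w - L2 q * L1 w) * h2'
    have e2 : (L1 (k := k) v - L2 v) * ((1 + algebraMap k (B ⊗[k] B) t * (L1 v + L2 v))
          * (L1 w + L1 v ^ 2)
        + (algebraMap k (B ⊗[k] B) t + 1) * (L1 v + L2 v)
          * (1 + algebraMap k (B ⊗[k] B) t * (L1 v + L2 v)) ^ 2
        + L2 q * (L1 v + L2 v))
        = (L1 q - L2 q) * (L1 (k := k) w + L1 v ^ 2)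
        + (algebraMap k (B ⊗[k] B) t + 1) * (L1 q - L2 q) ^ 2 + L2 q * (L1 v ^ 2 - L2 v ^ 2) := by
      rw [q3]
      linear_combination ((algebraMap k (B ⊗[k] B) t + 1) * (L1 (k := k) v - L2 v) * L2 v
        * (1 + algebraMap k (B ⊗[k] B) t * (L1 v + L2 v)) ^ 2) * h2'
    linear_combination L1 s' * e2 + L1 s' * e1

/-- over `k[w]` -/
theorem sepA_w [CharP k 2] {t : k} (u w Q s : B)
    (hQ : Q = u ^ 2 + u + algebraMap k B t) (hs : (w + 1) * s = 1)
    (rel : w ^ 2 = Q * w + algebraMap k B (t + 1) * Q ^ 2 + Q) :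
    ∃ e : B ⊗[k] B, Algebra.TensorProduct.lmul' (S := B) k e = 1 ∧ u ∈ goodSub w e := by
  have h2 : (2 : B) = 0 := two_zero k B
  have h2' : (2 : B ⊗[k] B) = 0 := two_zero k _
  refine ⟨L1 s * (algebraMap k (B ⊗[k] B) (t + 1) * (L1 u + L2 u) * (L1 u + L2 u + 1) ^ 2
    + (L1 w + 1) * (L1 u + L2 u + 1)), ?_, ?_⟩
  · simp only [map_mul, map_add, map_pow, lmul_L1, lmul_L2, map_one, AlgHom.commutes]
    linear_combination hs + (s * (algebraMap k B t + 1) * u * (2 * u + 1) ^ 2 + s * (w + 1) * u) * h2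
  · refine ⟨L1 s * (L1 w + L2 w + L2 Q), ?_⟩
    have r1 := congrArg (L1 (k := k)) rel
    have r2 := congrArg (L2 (k := k)) rel
    have q1 := congrArg (L1 (k := k)) hQ
    have q2 := congrArg (L2 (k := k)) hQ
    simp only [map_add, map_mul, map_pow, AlgHom.commutes, map_one] at r1 r2 q1 q2
    rw [← L1_apply, ← L2_apply, ← L1_apply, ← L2_apply, map_add, map_one]
    have q3 : L1 Q - L2 Q = (L1 (k := k) u - L2 u) * (L1 u + L2 u + 1) := by
      linear_combination q1 - q2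
    have e1 : (algebraMap k (B ⊗[k] B) t + 1) * (L1 Q - L2 Q) ^ 2
        + (L1 (k := k) w + 1) * (L1 Q - L2 Q) = (L1 w - L2 w) * (L1 w + L2 w + L2 Q) := by
      linear_combination r2 - r1 + (L2 w * L2 Q - L1 w * L2 Q
        + (algebraMap k (B ⊗[k] B) t + 1) * (L2 Q ^ 2 - L1 Q * L2 Q)) * h2'
    have e2 : (L1 (k := k) u - L2 u) * ((algebraMap k (B ⊗[k] B) t + 1) * (L1 u + L2 u)
        * (L1 u + L2 u + 1) ^ 2 + (L1 w + 1) * (L1 u + L2 u + 1))
        = (algebraMap k (B ⊗[k] B) t + 1) * (L1 Q - L2 Q) ^ 2 + (L1 (k := k) w + 1) * (L1 Q - L2 Q) := by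
      rw [q3]
      linear_combination ((algebraMap k (B ⊗[k] B) t + 1) * (L1 (k := k) u - L2 u) * L2 u
        * (L1 u + L2 u + 1) ^ 2) * h2'
    linear_combination L1 s * e2 + L1 s * e1

end H36.QX
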