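import Pool.Agent.H15.QX.Loc
import Pool.Agent.H15.QX.SepA

/-!
# CSec : the two sections `Q` and `u (w + 1)` (degree three) of the curve, without common zero

`v = 1 / u`, `w' = w v^2`, `q' = Q v^2`, `om = w' + v^2`. The open sets `x q ≠ 0` (section `Q`) and
`y (z + x^2) ≠ 0` (section `u (w + 1)`) cover the curve.
-/

set_option autoImplicit false

namespace H36.QX

open H36.NX

variable {k : Type} [Field k] {t : k} {R : Type} [CommRing R] [Algebra k R]
  {F : Type} [Field F] [Algebra k F]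

namespace QRing

variable (C : QRing k t R)

/-- `v = 1 / u` -/
def v : R := ((C.u⁻¹ : Rˣ) : R)
/-- `w' = w / u^2` -/
def wp : R := C.v ^ 2 * C.w
/-- `q' = Q / u^2` -/
noncomputable def qp : R := C.v ^ 2 * C.Q
/-- `om = (w + 1) / u^2` -/
def om : R := C.v ^ 2 * (C.w + 1)

theorem uv : (C.u : R) * C.v = 1 := by simp [v]
theorem vu : C.v * (C.u : R) = 1 := by simp [v]

theorem v_eq : C.v = ((C.u ^ (-1 : ℤ) : Rˣ) : R) := by simp [v]

theorem vpow_eq (n : ℕ) : C.v ^ n = ((C.u ^ (-(n : ℤ)) : Rˣ) : R) := by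
  rw [v, ← Units.val_pow_eq_pow_val]
  congr 1
  rw [zpow_neg, zpow_natCast, inv_pow]

theorem vpow_mem_Y (n : ℕ) {m : ℤ} (h : -(n : ℤ) ≤ m) : C.v ^ n ∈ C.Y m := by
  rw [vpow_eq]
  exact C.upow_mem_Y h

theorem v_mem_Y : C.v ∈ C.Y (-1) := by
  have h := C.vpow_mem_Y 1 (m := -1) (by norm_num)
  rwa [pow_one] at h

theorem v_mem_Y0 : C.v ∈ C.Y 0 := C.Y_mono (by norm_num) C.v_mem_Y

theorem wp_mem_Y : C.wp ∈ C.Y 0 := by
  have h := C.mul_mem_Y (C.vpow_mem_Y 2 (m := -2) (by norm_num)) (C.w_mem_Y (le_refl (2 : ℤ)))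
  rwa [neg_add_cancel] at h

theorem qp_mem_Y : C.qp ∈ C.Y 0 := by
  have h := C.mul_mem_Y (C.vpow_mem_Y 2 (m := -2) (by norm_num)) (C.Q_mem_Y (le_refl (2 : ℤ)))
  rwa [neg_add_cancel] at h

theorem om_eq : C.om = C.wp + C.v ^ 2 := by
  rw [om, wp]; ring

theorem om_mem_Y : C.om ∈ C.Y 0 := by
  rw [om_eq]
  exact (C.Y 0).add_mem C.wp_mem_Y (C.vpow_mem_Y 2 (by norm_num))

theorem qp_eq : C.qp = 1 + C.v + algebraMap k R t * C.v ^ 2 := by
  have h := C.vu
  rw [qp, Q_eq]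
  linear_combination (C.v * (C.u : R) + 1) * h + C.v * h

theorem rel_p : C.wp ^ 2 = C.qp * C.wp + algebraMap k R (t + 1) * C.qp ^ 2 + C.qp * C.v ^ 2 := by
  rw [wp, qp]
  linear_combination C.v ^ 4 * C.rel'

theorem Q_eq' : C.Q = (C.u : R) ^ 2 * C.qp := by
  have h := C.uv
  rw [qp]
  linear_combination (-C.Q * ((C.u : R) * C.v + 1)) * h

theorem tau_eq : (C.u : R) * (C.w + 1) = (C.u : R) ^ 3 * C.om := by
  have h := C.uv
  rw [om]
  linear_combination (-(C.u : R) * (C.w + 1) * ((C.u : R) * C.v + 1)) * h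

end QRing

section

variable (C : QRing k t R)

/-- the section `Q = q x / x^3` -/
noncomputable def secU : Sec C where
  τ := C.Q
  d := 3
  hτ s := C.Q_mem_pc s (by norm_num)

/-- the section `u (w + 1) = y (z + x^2) / x^3` -/
noncomputable def secV : Sec C where
  τ := (C.u : R) * (C.w + 1)
  d := 3
  hτ s := by
    have h := C.pc_mul_mem s (C.u_mem_pc s (le_refl (1 : ℤ)))
      ((C.pc s 2).add_mem (C.w_mem_pc s le_rfl) (C.one_mem_pc s (by norm_num)))
    exact h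

/-- the subalgebra `X` of `R` -/
def subX : Subalgebra k R where
  carrier := C.X
  mul_mem' := fun ha hb => C.mul_mem_X ha hb
  one_mem' := C.one_mem_X
  add_mem' := fun ha hb => C.X.add_mem ha hb
  zero_mem' := C.X.zero_mem
  algebraMap_mem' := fun c => by
    rw [Algebra.algebraMap_eq_smul_one]
    exact C.X.smul_mem c C.one_mem_X

/-- the subalgebra `Y 0` of `R` -/
def subY : Subalgebra k R where
  carrier := C.Y 0
  mul_mem' := fun ha hb => by simpa using C.mul_mem_Y ha hb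
  one_mem' := C.one_mem_Y le_rfl
  add_mem' := fun ha hb => (C.Y 0).add_mem ha hb
  zero_mem' := (C.Y 0).zero_mem
  algebraMap_mem' := fun c => by
    rw [Algebra.algebraMap_eq_smul_one]
    exact (C.Y 0).smul_mem c (C.one_mem_Y le_rfl)

private theorem cov_X [CharP k 2] (ht : t ≠ 0) :
    ∃ α ∈ C.X, ∃ β ∈ C.X, α * C.Q + β * ((C.u : R) * (C.w + 1)) = 1 := by
  have h2 : (2 : R) = 0 := two_zero k R
  have hti : algebraMap k R t⁻¹ * algebraMap k R t = 1 := by
    rw [← map_mul, inv_mul_cancel₀ ht, map_one]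
  have hu : (C.u : R) ∈ subX C := C.u_mem_X
  have hw : C.w ∈ subX C := C.w_mem_X
  have hQ : C.Q ∈ subX C := C.Q_mem_X
  have ha : ∀ c : k, algebraMap k R c ∈ subX C := fun c => (subX C).algebraMap_mem c
  have h1 : (1 : R) ∈ subX C := (subX C).one_mem
  have hg : C.w + algebraMap k R (t + 1) * C.Q + 1 ∈ subX C :=
    (subX C).add_mem ((subX C).add_mem hw ((subX C).mul_mem (ha _) hQ)) h1
  refine ⟨algebraMap k R t⁻¹ * (1 + algebraMap k R t * (C.w + algebraMap k R (t + 1) * C.Q + 1)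
    + C.Q * (C.w + algebraMap k R (t + 1) * C.Q + 1)), ?_,
    algebraMap k R t⁻¹ * (((C.u : R) + 1) * (C.w + 1)), ?_, ?_⟩
  · exact (subX C).mul_mem (ha _) ((subX C).add_mem ((subX C).add_mem h1
      ((subX C).mul_mem (ha _) hg)) ((subX C).mul_mem hQ hg))
  · exact (subX C).mul_mem (ha _) ((subX C).mul_mem ((subX C).add_mem hu h1)
      ((subX C).add_mem hw h1))
  · have hq := C.Q_eq
    have hr := C.rel'
    rw [map_add, map_one] at hr ⊢
    generalize algebraMap k R t = T at *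
    generalize algebraMap k R t⁻¹ = T' at *
    generalize C.Q = Q at *
    generalize (C.u : R) = u at *
    generalize C.w = w at *
    have e1 : (u + 1) * (w + 1) * (u * (w + 1)) = T + Q * (1 + T * (w + (T + 1) * Q + 1)
        + Q * (w + (T + 1) * Q + 1)) := by
      linear_combination (w ^ 2 + 2 * w + 1) * (-hq) + (Q - T) * hr
        + (w * (Q - T) - T - Q * T * (w + (T + 1) * Q + 1)) * h2
    linear_combination T' * e1 + hti + (T' * Q * (1 + T * (w + (T + 1) * Q + 1)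
        + Q * (w + (T + 1) * Q + 1))) * h2

private theorem cov_Y [CharP k 2] (ht1 : t + 1 ≠ 0) :
    ∃ α ∈ C.Y (-3), ∃ β ∈ C.Y (-3), α * C.Q + β * ((C.u : R) * (C.w + 1)) = 1 := by
  have h2 : (2 : R) = 0 := two_zero k R
  have hti1 : algebraMap k R (t + 1)⁻¹ * (algebraMap k R t + 1) = 1 := by
    have h := congrArg (algebraMap k R) (inv_mul_cancel₀ ht1)
    rwa [map_mul, map_add, map_one] at h
  have hv : C.v ∈ subY C := C.v_mem_Y0
  have hw : C.wp ∈ subY C := C.wp_mem_Y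
  have hq : C.qp ∈ subY C := C.qp_mem_Y
  have ha : ∀ c : k, algebraMap k R c ∈ subY C := fun c => (subY C).algebraMap_mem c
  have h1 : (1 : R) ∈ subY C := (subY C).one_mem
  set T := algebraMap k R t with hT
  set I := algebraMap k R (t + 1)⁻¹ with hI
  set α' : R := C.qp * (1 + T * C.v) * (C.qp + T + 1) + (T + 1) * T ^ 4 * C.v ^ 3 * C.qp
    + T * I * C.v ^ 3 with hα
  set β' : R := (1 + T ^ 4 * C.v ^ 4 + T * I * C.qp) * (C.wp + C.qp + C.v ^ 2) with hβ
  have hα' : α' ∈ subY C := by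
    refine (subY C).add_mem ((subY C).add_mem ((subY C).mul_mem ((subY C).mul_mem hq
      ((subY C).add_mem h1 ((subY C).mul_mem (ha _) hv))) ((subY C).add_mem ((subY C).add_mem hq
      (ha _)) h1)) ((subY C).mul_mem ((subY C).mul_mem ((subY C).mul_mem ((subY C).add_mem (ha _) h1)
      ((subY C).pow_mem (ha _) 4)) ((subY C).pow_mem hv 3)) hq)) ((subY C).mul_mem
      ((subY C).mul_mem (ha _) (ha _)) ((subY C).pow_mem hv 3))
  have hβ' : β' ∈ subY C := by
    refine (subY C).mul_mem ((subY C).add_mem ((subY C).add_mem h1 ((subY C).mul_mem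
      ((subY C).pow_mem (ha _) 4) ((subY C).pow_mem hv 4))) ((subY C).mul_mem ((subY C).mul_mem
      (ha _) (ha _)) hq)) ((subY C).add_mem ((subY C).add_mem hw hq) ((subY C).pow_mem hv 2))
  have e : α' * (C.v * C.qp) + β' * C.om = 1 := by
    have hq' := C.qp_eq
    have hr := C.rel_p
    rw [map_add, map_one, ← hT] at hr
    rw [← hT] at hq'
    rw [hα, hβ, C.om_eq]
    generalize C.wp = w at *
    generalize C.v = v at *
    generalize C.qp = q at *
    clear_value T I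
    clear hα' hβ' hα hβ hT hI
    have hN : (w + q + v ^ 2) * (w + v ^ 2) = (T + 1) * q ^ 2 + v ^ 4 := by
      linear_combination hr + (q * w + w * v ^ 2 + q * v ^ 2) * h2
    have hq2 : q ^ 2 = 1 + v ^ 2 + T ^ 2 * v ^ 4 := by
      rw [hq']
      linear_combination (v + T * v ^ 2 + T * v ^ 3) * h2
    have hq4 : q ^ 4 = 1 + v ^ 4 + T ^ 4 * v ^ 8 := by
      have h5 : q ^ 4 = (q ^ 2) ^ 2 := by ring
      rw [h5, hq2]
      linear_combination (v ^ 2 + T ^ 2 * v ^ 4 + T ^ 2 * v ^ 6) * h2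
    have hs : v + T * v ^ 2 = q - 1 := by rw [hq']; ring
    have e1 : (1 + T ^ 4 * v ^ 4 + T * I * q) * ((w + q + v ^ 2) * (w + v ^ 2))
        = (q ^ 4 - 1) + (T + 1) * q ^ 2 * (1 + T ^ 4 * v ^ 4) + T * q ^ 3 + T * I * q * v ^ 4 := by
      rw [hN]
      linear_combination (T * q ^ 3) * hti1 - hq4
    have e2 : (q * (1 + T * v) * (q + T + 1) + (T + 1) * T ^ 4 * v ^ 3 * q + T * I * v ^ 3) * (v * q)
        = q ^ 2 * (q - 1) * (q + T + 1) + (T + 1) * T ^ 4 * v ^ 4 * q ^ 2 + T * I * v ^ 4 * q := by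
      rw [← hs]; ring
    have e3 : (1 + T ^ 4 * v ^ 4 + T * I * q) * (w + q + v ^ 2) * (w + v ^ 2)
        = (1 + T ^ 4 * v ^ 4 + T * I * q) * ((w + q + v ^ 2) * (w + v ^ 2)) := by ring
    rw [e2, e3, e1]
    linear_combination (q ^ 4 - 1 + (T + 1) * T ^ 4 * v ^ 4 * q ^ 2 + T * q ^ 3
      + T * I * q * v ^ 4) * h2
  refine ⟨C.v ^ 3 * α', ?_, C.v ^ 3 * β', ?_, ?_⟩
  · have h := C.mul_mem_Y (C.vpow_mem_Y 3 (m := -3) (by norm_num)) hα'
    simpa using h
  · have h := C.mul_mem_Y (C.vpow_mem_Y 3 (m := -3) (by norm_num)) hβ'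
    simpa using h
  · rw [C.Q_eq', C.tau_eq]
    have h3 : (C.u : R) ^ 3 * C.v ^ 3 = 1 := by rw [← mul_pow, C.uv, one_pow]
    have h4 : (C.u : R) ^ 2 * C.v ^ 2 = 1 := by rw [← mul_pow, C.uv, one_pow]
    linear_combination e + (α' * C.v * C.qp) * h4 + (β' * C.om) * h3

theorem Cov_UV [CharP k 2] (ht : t ≠ 0) (ht1 : t + 1 ≠ 0) : Cov (secU C) (secV C) := by
  intro s
  cases s with
  | X => exact cov_X C ht
  | Y => exact cov_Y C ht1
  | R =>
    obtain ⟨α, _, β, _, h⟩ := cov_X C ht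
    exact ⟨α, Submodule.mem_top, β, Submodule.mem_top, h⟩

end

end H36.QX
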