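import Pool.Agent.H15.QX.CSec

/-!
# Der : the derivation of `R` with `D u = Q`, `D w = w + 1` (characteristic two)
-/

set_option autoImplicit false

namespace H36.QX

open H36.NX

variable {k : Type} [Field k] {t : k} {R : Type} [CommRing R] [Algebra k R]

/-- Define `D` on the basis by `D (u^m w^a) = m Q u^(m-1) w^a + a u^m w^(a-1) (w + 1)`. The same formula holds for
all `a` (use the relation), which gives the Leibniz rule on basis elements. -/
theorem exists_der (C : QRing k t R) [CharP k 2] : ∃ der : R →ₗ[k] R,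
    (∀ a b, der (a * b) = a * der b + der a * b) ∧ der (C.u : R) = C.Q ∧
      der C.w = C.w + 1 := by
  classical
  have h2 : (2 : R) = 0 := two_zero k R
  let U : ℤ → R := fun m => ((C.u ^ (m - 1) : Rˣ) : R)
  let D : ℤ → ℕ → R := fun m j => U m * ((m : R) * C.Q * C.w ^ j
    + (j : R) * (C.u : R) * C.w ^ (j - 1) * (C.w + 1))
  have hDdef : ∀ m j, D m j = U m * ((m : R) * C.Q * C.w ^ j
    + (j : R) * (C.u : R) * C.w ^ (j - 1) * (C.w + 1)) := fun _ _ => rfl
  have hU : ∀ (m : ℤ) (j : ℕ), U (m + (j : ℤ)) = U m * (C.u : R) ^ j := by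
    intro m j
    have h := QRing.Mul_upow_add C (m - 1) j
    refine Eq.trans ?_ h
    show ((C.u ^ (m + (j : ℤ) - 1) : Rˣ) : R) = _
    congr 2
    ring
  have hu : ∀ m : ℤ, ((C.u ^ m : Rˣ) : R) = U m * (C.u : R) := by
    intro m
    have h := hU m 1
    rw [pow_one] at h
    refine Eq.trans ?_ h
    show _ = ((C.u ^ (m + ((1 : ℕ) : ℤ) - 1) : Rˣ) : R)
    congr 2
    push_cast
    ring
  let der : R →ₗ[k] R := C.bas.constr k (fun q => D q.1 (q.2 : ℕ))
  have hb : ∀ (m : ℤ) (a : Fin 2), der (C.bas (m, a)) = D m (a : ℕ) := fun m a =>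
    C.bas.constr_basis k _ _
  have hP1 : ∀ (j : ℕ) (m : ℤ), j < 2 → der (((C.u ^ m : Rˣ) : R) * C.w ^ j) = D m j := by
    intro j m hj
    rw [← QRing.Mul_bas C m j hj, hb]
  -- `D (Q x) = Q x + Q D x`
  have hQ : ∀ x : R, der (C.Q * x) = C.Q * x + C.Q * der x := by
    have key : der ∘ₗ LinearMap.mulLeft k C.Q
        = LinearMap.mulLeft k C.Q + LinearMap.mulLeft k C.Q ∘ₗ der := by
      refine C.bas.ext fun p => ?_
      obtain ⟨m, a⟩ := p
      rw [LinearMap.comp_apply, LinearMap.add_apply, LinearMap.comp_apply,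
        LinearMap.mulLeft_apply, LinearMap.mulLeft_apply, hb, C.bas_eq]
      have e1 : C.Q * (((C.u ^ m : Rˣ) : R) * C.w ^ (a : ℕ))
          = ((C.u ^ m : Rˣ) : R) * (C.Q * C.w ^ (a : ℕ)) := by ring
      have e2 : der (C.Q * (((C.u ^ m : Rˣ) : R) * C.w ^ (a : ℕ)))
          = D (m + ((2 : ℕ) : ℤ)) a + D (m + ((1 : ℕ) : ℤ)) a + t • D m a := by
        rw [e1, QRing.Mul_Q, map_add, map_add, map_smul, hP1 _ _ a.2, hP1 _ _ a.2, hP1 _ _ a.2]
      rw [e2, hDdef, hDdef, hDdef, hU, hU, hu m, Algebra.smul_def]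
      have hq := C.Q_eq
      push_cast
      linear_combination (U m * ((C.u : R) ^ 2 * C.Q * C.w ^ (a : ℕ))) * h2
        - (U m * ((m : R) * C.Q * C.w ^ (a : ℕ)
          + ((a : ℕ) : R) * (C.u : R) * C.w ^ ((a : ℕ) - 1) * (C.w + 1))) * hq
    intro x
    exact congrArg (fun L : R →ₗ[k] R => L x) key
  have hP2 : ∀ m : ℤ, der (((C.u ^ m : Rˣ) : R) * C.w ^ 2) = D m 2 := by
    intro m
    have e1 : ((C.u ^ m : Rˣ) : R) * C.w ^ 2 = C.Q * (((C.u ^ m : Rˣ) : R) * C.w ^ 1)
        + (t + 1) • (C.Q * (C.Q * (((C.u ^ m : Rˣ) : R) * C.w ^ 0)))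
        + C.Q * (((C.u ^ m : Rˣ) : R) * C.w ^ 0) := by
      rw [C.rel', Algebra.smul_def]
      ring
    rw [e1, map_add, map_add, map_smul, hQ, hQ, hQ, hP1 1 m (by norm_num),
      hP1 0 m (by norm_num), hDdef, hDdef, hDdef, hu m, Algebra.smul_def]
    have hr := C.rel'
    generalize algebraMap k R (t + 1) = T1 at hr ⊢
    push_cast
    linear_combination (-(U m * (m : R) * C.Q)) * hr + (U m * (C.u : R) * C.Q * C.w
      + U m * (C.u : R) * C.Q + T1 * U m * (C.u : R) * C.Q ^ 2
      - U m * (C.u : R) * C.w * (C.w + 1)) * h2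
  have hP : ∀ (j : ℕ) (m : ℤ), j < 3 → der (((C.u ^ m : Rˣ) : R) * C.w ^ j) = D m j := by
    intro j m hj
    by_cases h : j < 2
    · exact hP1 j m h
    · have : j = 2 := by omega
      subst this
      exact hP2 m
  refine ⟨der, ?_, ?_, ?_⟩
  · have key : (LinearMap.mul k R).compr₂ der =
        (LinearMap.mul k R).compl₂ der + (LinearMap.mul k R) ∘ₗ der := by
      refine C.bas.ext fun p => C.bas.ext fun p' => ?_
      obtain ⟨m, a⟩ := p
      obtain ⟨n, b⟩ := p'
      have ha := a.2
      have hb2 := b.2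
      rw [LinearMap.compr₂_apply, LinearMap.add_apply, LinearMap.add_apply, LinearMap.compl₂_apply,
        LinearMap.comp_apply, LinearMap.mul_apply', LinearMap.mul_apply', LinearMap.mul_apply',
        QRing.Mul_bas_mul, hP _ _ (by omega), hb, hb, C.bas_eq, C.bas_eq]
      have e8 : U (m + n) = U m * U n * (C.u : R) := by
        have h : U (m + n) = ((C.u ^ (m - 1 + n) : Rˣ) : R) := by
          show ((C.u ^ (m + n - 1) : Rˣ) : R) = _
          congr 2
          ring
        rw [h, zpow_add, Units.val_mul, hu n]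
        show U m * (U n * (C.u : R)) = _
        ring
      rw [hDdef, hDdef, hDdef, e8, hu m, hu n]
      generalize (a : ℕ) = a'
      generalize (b : ℕ) = b'
      cases a' with
      | zero =>
        cases b' with
        | zero => push_cast; simp only [Nat.zero_add, pow_zero]; ring
        | succ b =>
          simp only [Nat.zero_add, Nat.add_sub_cancel]
          push_cast
          ring
      | succ a =>
        cases b' with
        | zero =>
          simp only [Nat.add_zero, Nat.add_sub_cancel]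
          push_cast
          ring
        | succ b =>
          have e9 : a + 1 + (b + 1) - 1 = a + b + 1 := by omega
          rw [e9]
          simp only [Nat.add_sub_cancel]
          push_cast
          ring
    intro a b
    have h := congrArg (fun L : R →ₗ[k] R →ₗ[k] R => L a b) key
    exact h
  · have h := hP 0 1 (by norm_num)
    rw [hDdef, zpow_one, pow_zero, mul_one] at h
    rw [h]
    have e : U 1 = 1 := by
      show ((C.u ^ ((1 : ℤ) - 1) : Rˣ) : R) = 1
      simp
    rw [e]
    simp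
  · have h := hP 1 0 (by norm_num)
    rw [hDdef, zpow_zero, pow_one, Units.val_one, one_mul] at h
    rw [h]
    have e : U 0 * (C.u : R) = 1 := by
      rw [← hu 0, zpow_zero, Units.val_one]
    push_cast
    rw [pow_zero]
    linear_combination (C.w + 1) * e

/-- values of the derivation -/
theorem der_vals (C : QRing k t R) [CharP k 2] (der : R →ₗ[k] R)
    (hd : ∀ a b, der (a * b) = a * der b + der a * b) (hu : der (C.u : R) = C.Q)
    (hw : der C.w = C.w + 1) : der 1 = 0 ∧ der C.v = C.qp ∧ der C.wp = C.om := by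
  have h2 : (2 : R) = 0 := two_zero k R
  have h1 : der 1 = 0 := by
    have h := hd 1 1
    rw [mul_one, one_mul, mul_one] at h
    exact left_eq_add.mp h
  have hv : der C.v = C.qp := by
    have h := hd C.v (C.u : R)
    rw [C.vu, h1, hu] at h
    have h3 := C.uv
    have h4 : der C.v * (C.u : R) = -(C.v * C.Q) := by linear_combination -h
    have h5 : der C.v = -(C.v ^ 2 * C.Q) := by
      linear_combination C.v * h4 - der C.v * h3
    rw [h5, QRing.qp]
    linear_combination (-(C.v ^ 2 * C.Q)) * h2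
  refine ⟨h1, hv, ?_⟩
  have h6 : der (C.v ^ 2) = 0 := by
    rw [pow_two, hd]
    linear_combination (C.v * der C.v) * h2
  rw [QRing.wp, QRing.om, hd, h6, hw]
  ring

end H36.QX
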