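import Pool.Agent.H15.QX.CMV
import Pool.Agent.H15.QX.Der
import Pool.Agent.H36.QX.ChtS

/-!
# Cht3 : the three charts `x q ≠ 0`, `y (z + x^2) ≠ 0` and their intersection
-/

set_option autoImplicit false

open NC

noncomputable section

namespace H36.QX

open H36.NX
variable {k : Type} [Field k] {t : k} {R : Type} [CommRing R] [Algebra k R]
  {F : Type} [Field F] [Algebra k F] (C : QRing k t R) (j : R →ₐ[k] F)

/-- the piece system of a section -/
def Sec.T {C : QRing k t R} (σ : Sec C) (j : R →ₐ[k] F) : PS C j where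
  S := σ.S j
  mul := σ.mul_S j
  le := σ.S_le j

variable [CharP k 2] (hj : Function.Injective j)

/-- the chart `x q ≠ 0` -/
def chX : Cht C j where
  T := (secU C).T j
  τ := (secU C).τ
  d := 3
  e := Pc.X
  e' := Pc.Y
  g := 1
  B := RX C j
  c := j (C.u : R)
  jinj := hj
  he := Or.inl ⟨rfl, rfl⟩
  g0 := one_ne_zero
  τ0 := jQ_ne C j hj
  hτ := (secU C).hτ
  hloc _ _ _ := Iff.rfl
  hB := (secU C).S_X_iff j
  hac := hac_U C j
  hg := Or.inl rfl
  cB := ju_mem_RX C j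
  sep := sepOver_RX C j hj

/-- the chart `y (z + x^2) ≠ 0` -/
def chV : Cht C j where
  T := (secV C).T j
  τ := (secV C).τ
  d := 3
  e := Pc.Y
  e' := Pc.X
  g := j (C.u : R)
  B := RV C j
  c := j C.wp
  jinj := hj
  he := Or.inr ⟨rfl, rfl⟩
  g0 := Sec.j_u_ne j
  τ0 := jτV_ne C j hj
  hτ := (secV C).hτ
  hloc _ _ _ := Iff.rfl
  hB := (secV C).S_Y_iff j
  hac := hac_V C j
  hg := Or.inr rfl
  cB := jwp_mem_RV C j
  sep := sepOver_RV C j hj

/-- the intersection -/
def chW : Cht C j where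
  T := (secW C).T j
  τ := (secW C).τ
  d := 6
  e := Pc.X
  e' := Pc.Y
  g := 1
  B := RW C j
  c := j (C.u : R)
  jinj := hj
  he := Or.inl ⟨rfl, rfl⟩
  g0 := one_ne_zero
  τ0 := jτW_ne C j hj
  hτ := (secW C).hτ
  hloc _ _ _ := Iff.rfl
  hB := (secW C).S_X_iff j
  hac := hac_W C j
  hg := Or.inl rfl
  cB := ju_mem_RW C j
  sep := sepOver_RW C j hj

theorem chX_le (s : Pc) (n : ℤ) : (chX C j hj).T.S s n ≤ (chW C j hj).T.S s n :=
  (secU C).S_le_mul_left j (secV C) s n

theorem chV_le (s : Pc) (n : ℤ) : (chV C j hj).T.S s n ≤ (chW C j hj).T.S s n :=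
  (secU C).S_le_mul_right j (secV C) s n

end H36.QX
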