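import Pool.Agent.H36.QX.Der
import Pool.Agent.H15.QX.Der
import Mathlib.RingTheory.Localization.FractionRing

/-!
# DerF : the derivation on the fraction field
-/

set_option autoImplicit false

noncomputable section

namespace H36.QX

open H36.NX

variable {k : Type} [Field k] {R : Type} [CommRing R] [Algebra k R]

/-- a derivation of a domain extends to its fraction field -/
theorem exists_derF [IsDomain R] (der : R →ₗ[k] R)
    (hd : ∀ a b, der (a * b) = a * der b + der a * b) (h1 : der 1 = 0) :
    ∃ dF : FractionRing R →ₗ[k] FractionRing R,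
      (∀ a b, dF (a * b) = a * dF b + dF a * b) ∧
      ∀ r : R, dF (algebraMap R (FractionRing R) r) = algebraMap R (FractionRing R) (der r) := by
  classical
  let F := FractionRing R
  let φ : R →+* TrivSqZeroExt F F :=
    { toFun := fun r => TrivSqZeroExt.inl (algebraMap R F r) + TrivSqZeroExt.inr
        (algebraMap R F (der r))
      map_one' := by
        rw [h1, map_one, map_zero, TrivSqZeroExt.inr_zero, add_zero]; rfl
      map_zero' := by
        rw [map_zero, map_zero, map_zero, TrivSqZeroExt.inr_zero, add_zero,
          TrivSqZeroExt.inl_zero]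
      map_add' := fun a b => by
        rw [map_add, map_add, map_add, TrivSqZeroExt.inl_add, TrivSqZeroExt.inr_add]
        abel
      map_mul' := fun a b => by
        ext
        · simp
        · simp only [TrivSqZeroExt.snd_mul, TrivSqZeroExt.fst_add, TrivSqZeroExt.fst_inl,
            TrivSqZeroExt.fst_inr, TrivSqZeroExt.snd_add, TrivSqZeroExt.snd_inl,
            TrivSqZeroExt.snd_inr, add_zero, zero_add, smul_eq_mul,
            MulOpposite.smul_eq_mul_unop, MulOpposite.unop_op]
          rw [hd, map_add, map_mul, map_mul] }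
  have hφ1 : ∀ r, (φ r).fst = algebraMap R F r := fun r => by
    change (TrivSqZeroExt.inl (algebraMap R F r) + TrivSqZeroExt.inr
        (algebraMap R F (der r)) : TrivSqZeroExt F F).fst = _
    simp
  have hφ2 : ∀ r, (φ r).snd = algebraMap R F (der r) := fun r => by
    change (TrivSqZeroExt.inl (algebraMap R F r) + TrivSqZeroExt.inr
        (algebraMap R F (der r)) : TrivSqZeroExt F F).snd = _
    simp
  have hu : ∀ y : nonZeroDivisors R, IsUnit (φ y) := fun y => by
    rw [TrivSqZeroExt.isUnit_iff_isUnit_fst, hφ1]
    exact IsLocalization.map_units F y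
  let Φ : F →+* TrivSqZeroExt F F := IsLocalization.lift hu
  have hΦ : ∀ r, Φ (algebraMap R F r) = φ r := fun r => IsLocalization.lift_eq hu r
  have hfst : ∀ x : F, (Φ x).fst = x := by
    have h : (TrivSqZeroExt.fstHom F F F : TrivSqZeroExt F F →+* F).comp Φ = RingHom.id F := by
      refine IsLocalization.ringHom_ext (nonZeroDivisors R) ?_
      ext r
      change (Φ (algebraMap R F r)).fst = algebraMap R F r
      rw [hΦ, hφ1]
    exact fun x => congrArg (fun f : F →+* F => f x) h
  have hadd : ∀ x y : F, (Φ (x + y)).snd = (Φ x).snd + (Φ y).snd := fun x y => by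
    rw [map_add, TrivSqZeroExt.snd_add]
  have hmul : ∀ x y : F, (Φ (x * y)).snd = x * (Φ y).snd + (Φ x).snd * y := fun x y => by
    rw [map_mul, TrivSqZeroExt.snd_mul, hfst, hfst, smul_eq_mul,
      MulOpposite.smul_eq_mul_unop, MulOpposite.unop_op]
  have hk : ∀ c : k, (Φ (algebraMap k F c)).snd = 0 := fun c => by
    have h2 : der (algebraMap k R c) = 0 := by
      rw [Algebra.algebraMap_eq_smul_one, map_smul, h1, smul_zero]
    rw [IsScalarTower.algebraMap_apply k R F, hΦ, hφ2, h2, map_zero]
  refine ⟨{ toFun := fun x => (Φ x).snd, map_add' := hadd, map_smul' := fun c x => ?_ }, hmul,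
    fun r => ?_⟩
  · rw [Algebra.smul_def, hmul, hk, zero_mul, add_zero, RingHom.id_apply, Algebra.smul_def]
  · change (Φ (algebraMap R F r)).snd = _
    rw [hΦ, hφ2]

end H36.QX
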