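import Pool.Agent.H15.QX.Cht3
import Pool.Agent.H15.QX.DerF
import Pool.Agent.H36.QX.HHb
import Pool.Agent.H36.QX.Dom

/-!
# HHev : the even part of the Hochschild homology of the example is spanned by two classes
-/

set_option autoImplicit false

open NC

noncomputable section

namespace H36.QX

open H36.NX

variable {k : Type} [Field k] [CharP k 2] {t : k} {R : Type} [CommRing R] [Algebra k R]
  (C : QRing k t R)

/-- the three charts -/
def mvs {F : Type} [Field F] [Algebra k F] (j : R →ₐ[k] F) (hj : Function.Injective j)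
    (ht : t ≠ 0) (ht1 : t + 1 ≠ 0) : MVS C j where
  X := chX C j hj
  V := chV C j hj
  W := chW C j hj
  leX := chX_le C j hj
  leV := chV_le C j hj
  inf s n _ hx hx' := mv_inf C j ht ht1 s n hx hx'
  sup s n _ hx := mv_sup C j ht ht1 s n hx
  eX := rfl
  eV := rfl
  eW := rfl
  gX := rfl
  gV := rfl
  gW := rfl
  cW := rfl
  XW := RX_le_RW C j
  VW := RV_le_RW C j

/-- the even part of the Hochschild homology is spanned by two classes -/
theorem hh_even_two [IsDomain R] (ht : t ≠ 0) (ht1 : t + 1 ≠ 0) :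
    ∃ a b : (HC (AA C).diag).V, (HC (AA C).diag).D a = 0 ∧
      (HC (AA C).diag).D b = 0 ∧ (HC (AA C).diag).P a = a ∧ (HC (AA C).diag).P b = b ∧
      ∀ x, (HC (AA C).diag).P x = x → (HC (AA C).diag).D x = 0 →
        ∃ c d : k, (HC (AA C).diag).Hml x (c • a + d • b) := by
  have hd : ∀ a b, C.der (a * b) = a * C.der b + C.der a * b := fun a b => by
    rw [C.der_mul, add_comm]
  obtain ⟨h1, _, h3⟩ := der_vals C C.der hd C.der_u C.der_w
  obtain ⟨dF, hdF, hj⟩ := exists_derF C.der hd h1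
  let j : R →ₐ[k] FractionRing R := IsScalarTower.toAlgHom k R (FractionRing R)
  have hji : Function.Injective j := IsFractionRing.injective R (FractionRing R)
  have eu : dF (j (C.u : R)) = j C.Q := (hj _).trans (congrArg _ C.der_u)
  have ew : dF (j C.wp) = j C.om := (hj _).trans (congrArg _ h3)
  have hQ0 := jQ_ne C j hji
  refine MVS.hh_even (mvs C j hji ht ht1) dF hdF (fun x hx hx' => mem_k C j ht ht1 hji hx hx')
    (j (C.bas (-1, 1))) (j_mem_RW C j _) (fun x hx => exists_sum C j ht ht1 hx) ?_ ?_ ?_ ?_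
  · change dF (j (C.u : R)) ∈ RW C j
    rw [eu]; exact j_mem_RW C j _
  · refine ⟨(j C.Q)⁻¹, RX_le_RW C j (jQinv_mem_RX C j hji), ?_⟩
    change (j C.Q)⁻¹ * dF (j (C.u : R)) = 1
    rw [eu, inv_mul_cancel₀ hQ0]
  · refine ⟨(j C.Q)⁻¹, jQinv_mem_RX C j hji, ?_⟩
    change (j C.Q)⁻¹ * dF (j (C.u : R)) = 1
    rw [eu, inv_mul_cancel₀ hQ0]
  · refine ⟨(j C.om)⁻¹, jominv_mem_RV C j hji, ?_⟩
    change (j C.om)⁻¹ * dF (j C.wp) = 1
    rw [ew, inv_mul_cancel₀ (jom_ne C j hji)]

end H36.QX
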