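import Pool.Agent.H36.QX.Alg
import Pool.Agent.H36.QX.Coh

/-!
# Loc : homogeneous localisation of the pieces at a section `τ` of degree `d`, inside a field `F`

`σ.S j s n = {x | τ^m x ∈ pc s (n + m d) for some m}`. Two sections `σ`, `σ'` without common zero on any piece
(`Cov σ σ'`) give `0 → pc s n → σ.S s n ⊕ σ'.S s n → (σ σ').S s n → 0` for every piece and weight.
-/

set_option autoImplicit false

namespace H36.QX

open H36.NX

variable {k : Type} [Field k] {t : k} {R : Type} [CommRing R] [Algebra k R]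
  {F : Type} [Field F] [Algebra k F]

/-- a section `τ` of degree `d` -/
structure Sec (C : QRing k t R) where
  τ : R
  d : ℕ
  hτ : ∀ s : Pc, τ ∈ C.pc s d

theorem pow_mem_pc (C : QRing k t R) (s : Pc) {r : R} {n : ℤ} (h : r ∈ C.pc s n) (m : ℕ) :
    r ^ m ∈ C.pc s (m * n) := by
  induction m with
  | zero =>
    rw [pow_zero]
    exact C.one_mem_pc s (by simp)
  | succ m ih =>
    rw [pow_succ]
    have h1 := C.pc_mul_mem s ih h
    rwa [show (m : ℤ) * n + n = ((m + 1 : ℕ) : ℤ) * n by push_cast; ring] at h1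

namespace Sec

variable {C : QRing k t R}

/-- the localisation of the piece `s` in weight `n` -/
def S (σ : Sec C) (j : R →ₐ[k] F) (s : Pc) (n : ℤ) : Submodule k F where
  carrier := {x | ∃ (m : ℕ) (r : R), r ∈ C.pc s (n + m * (σ.d : ℕ)) ∧ (j σ.τ) ^ m * x = j r}
  add_mem' := by
    rintro x y ⟨m, r, hr, hx⟩ ⟨l, r', hr', hy⟩
    refine ⟨m + l, σ.τ ^ l * r + σ.τ ^ m * r', (C.pc s _).add_mem ?_ ?_, ?_⟩
    · have h1 := C.pc_mul_mem s (pow_mem_pc C s (σ.hτ s) l) hr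
      rwa [show (l : ℤ) * (σ.d : ℤ) + (n + (m : ℤ) * (σ.d : ℤ)) = n + ((m + l : ℕ) : ℤ) * σ.d by
        push_cast; ring] at h1
    · have h1 := C.pc_mul_mem s (pow_mem_pc C s (σ.hτ s) m) hr'
      rwa [show (m : ℤ) * (σ.d : ℤ) + (n + (l : ℤ) * (σ.d : ℤ)) = n + ((m + l : ℕ) : ℤ) * σ.d by
        push_cast; ring] at h1
    · rw [map_add, map_mul, map_mul, map_pow, map_pow, ← hx, ← hy, pow_add]
      ring
  zero_mem' := ⟨0, 0, (C.pc s _).zero_mem, by simp⟩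
  smul_mem' := by
    rintro c x ⟨m, r, hr, hx⟩
    exact ⟨m, c • r, (C.pc s _).smul_mem c hr, by rw [map_smul, ← hx, mul_smul_comm]⟩

variable (σ : Sec C) (j : R →ₐ[k] F)

theorem mem_S (s : Pc) (n : ℤ) (x : F) : x ∈ σ.S j s n ↔
    ∃ (m : ℕ) (r : R), r ∈ C.pc s (n + m * (σ.d : ℕ)) ∧ (j σ.τ) ^ m * x = j r := Iff.rfl

theorem j_mem (s : Pc) {n : ℤ} {r : R} (h : r ∈ C.pc s n) : j r ∈ σ.S j s n :=
  ⟨0, r, by simpa using h, by simp⟩

theorem S_mul {s : Pc} {m n : ℤ} {x y : F} (hx : x ∈ σ.S j s m) (hy : y ∈ σ.S j s n) :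
    x * y ∈ σ.S j s (m + n) := by
  obtain ⟨a, r, hr, hx⟩ := hx
  obtain ⟨b, r', hr', hy⟩ := hy
  refine ⟨a + b, r * r', ?_, ?_⟩
  · have h1 := C.pc_mul_mem s hr hr'
    rwa [show m + (a : ℤ) * (σ.d : ℤ) + (n + (b : ℤ) * (σ.d : ℤ))
      = m + n + ((a + b : ℕ) : ℤ) * σ.d by push_cast; ring] at h1
  · rw [map_mul, ← hx, ← hy, pow_add]
    ring

theorem mul_S (s : Pc) (m n : ℤ) (r : R) (x : F) (hr : r ∈ C.pc s m) (hx : x ∈ σ.S j s n) :
    j r * x ∈ σ.S j s (m + n) := σ.S_mul j (σ.j_mem j s hr) hx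

theorem S_le (s : Pc) (n : ℤ) : σ.S j s n ≤ σ.S j Pc.R n := by
  rintro x ⟨m, r, _, hx⟩
  exact ⟨m, r, Submodule.mem_top, hx⟩

theorem S_mono (s : Pc) {m n : ℤ} (h : m ≤ n) : σ.S j s m ≤ σ.S j s n := by
  rintro x ⟨a, r, hr, hx⟩
  exact ⟨a, r, C.pc_mono s (by linarith) hr, hx⟩

theorem S_X (m n : ℤ) : σ.S j Pc.X m = σ.S j Pc.X n := rfl

theorem S_R (m n : ℤ) : σ.S j Pc.R m = σ.S j Pc.R n := rfl

/-- the functions of weight zero -/
def B (s : Pc) : Subalgebra k F where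
  carrier := σ.S j s 0
  mul_mem' := fun ha hb => by simpa using σ.S_mul j ha hb
  one_mem' := by
    have h := σ.j_mem j s (C.one_mem_pc s (le_refl (0 : ℤ)))
    rwa [map_one] at h
  add_mem' := fun ha hb => (σ.S j s 0).add_mem ha hb
  zero_mem' := (σ.S j s 0).zero_mem
  algebraMap_mem' := fun c => by
    have h := σ.j_mem j s (C.one_mem_pc s (le_refl (0 : ℤ)))
    rw [map_one] at h
    rw [Algebra.algebraMap_eq_smul_one]
    exact (σ.S j s 0).smul_mem c h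

theorem mem_B (s : Pc) (x : F) : x ∈ σ.B j s ↔ x ∈ σ.S j s 0 := Iff.rfl

theorem S_X_iff (n : ℤ) (x : F) : x ∈ σ.S j Pc.X n ↔ (1 : F) ^ (-n) * x ∈ σ.B j Pc.X := by
  rw [one_zpow, one_mul]
  exact Iff.rfl

theorem j_upow (n : ℤ) : j ((C.u ^ n : Rˣ) : R) = j (C.u : R) ^ n := by
  have h1 : j ((C.u ^ n : Rˣ) : R) = ((Units.map (j : R →* F) (C.u ^ n) : Fˣ) : F) := rfl
  rw [h1, map_zpow, Units.val_zpow_eq_zpow_val]
  rfl

theorem j_u_ne : j (C.u : R) ≠ 0 := by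
  intro h
  have h1 : j ((C.u : R) * ((C.u⁻¹ : Rˣ) : R)) = 0 := by rw [map_mul, h, zero_mul]
  rw [Units.mul_inv, map_one] at h1
  exact one_ne_zero h1

theorem S_Y_iff (n : ℤ) (x : F) :
    x ∈ σ.S j Pc.Y n ↔ j (C.u : R) ^ (-n) * x ∈ σ.B j Pc.Y := by
  constructor
  · intro hx
    have h1 := σ.mul_S j Pc.Y (-n) n ((C.u ^ (-n) : Rˣ) : R) x (C.upow_mem_Y le_rfl) hx
    rw [neg_add_cancel, j_upow] at h1
    exact h1
  · intro hx
    have h1 := σ.mul_S j Pc.Y n 0 ((C.u ^ n : Rˣ) : R) _ (C.upow_mem_Y le_rfl) hx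
    rwa [add_zero, j_upow, ← mul_assoc, ← zpow_add₀ (j_u_ne j), add_neg_cancel, zpow_zero,
      one_mul] at h1

/-- product of two sections -/
def mul (σ σ' : Sec C) : Sec C where
  τ := σ.τ * σ'.τ
  d := σ.d + σ'.d
  hτ s := by
    have h := C.pc_mul_mem s (σ.hτ s) (σ'.hτ s)
    push_cast
    exact h

theorem S_le_mul_left (σ' : Sec C) (s : Pc) (n : ℤ) : σ.S j s n ≤ (σ.mul σ').S j s n := by
  rintro x ⟨m, r, hr, hx⟩
  refine ⟨m, σ'.τ ^ m * r, ?_, ?_⟩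
  · have h1 := C.pc_mul_mem s (pow_mem_pc C s (σ'.hτ s) m) hr
    rwa [show (m : ℤ) * (σ'.d : ℤ) + (n + (m : ℤ) * (σ.d : ℤ))
      = n + (m : ℤ) * ((σ.mul σ').d : ℤ) by
        change _ = n + (m : ℤ) * ((σ.d + σ'.d : ℕ) : ℤ)
        push_cast; ring] at h1
  · change (j (σ.τ * σ'.τ)) ^ m * x = _
    rw [map_mul, map_mul, map_pow, ← hx, mul_pow]
    ring

theorem S_le_mul_right (σ' : Sec C) (s : Pc) (n : ℤ) : σ'.S j s n ≤ (σ.mul σ').S j s n := by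
  rintro x ⟨m, r, hr, hx⟩
  refine ⟨m, σ.τ ^ m * r, ?_, ?_⟩
  · have h1 := C.pc_mul_mem s (pow_mem_pc C s (σ.hτ s) m) hr
    rwa [show (m : ℤ) * (σ.d : ℤ) + (n + (m : ℤ) * (σ'.d : ℤ))
      = n + (m : ℤ) * ((σ.mul σ').d : ℤ) by
        change _ = n + (m : ℤ) * ((σ.d + σ'.d : ℕ) : ℤ)
        push_cast; ring] at h1
  · change (j (σ.τ * σ'.τ)) ^ m * x = _
    rw [map_mul, map_mul, map_pow, ← hx, mul_pow]
    ring

/-- the inverse of `τ` -/
theorem inv_mem (h : j σ.τ ≠ 0) (s : Pc) : (j σ.τ)⁻¹ ∈ σ.S j s (-(σ.d : ℤ)) := by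
  refine ⟨1, 1, ?_, ?_⟩
  · rw [Nat.cast_one, one_mul, neg_add_cancel]
    exact C.one_mem_pc s le_rfl
  · rw [pow_one, mul_inv_cancel₀ h, map_one]

end Sec

/-- two sections without common zero on any piece -/
def Cov {C : QRing k t R} (σ σ' : Sec C) : Prop :=
  ∀ s : Pc, ∃ α ∈ C.pc s (-(σ.d : ℤ)), ∃ β ∈ C.pc s (-(σ'.d : ℤ)), α * σ.τ + β * σ'.τ = 1

namespace Cov

variable {C : QRing k t R} {σ σ' : Sec C}

theorem pow_left (h : Cov σ σ') (s : Pc) (m : ℕ) :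
    ∃ α ∈ C.pc s (-((m : ℤ) * σ.d)), ∃ β ∈ C.pc s (-(σ'.d : ℤ)),
      α * σ.τ ^ m + β * σ'.τ = 1 := by
  obtain ⟨α, hα, β, hβ, h1⟩ := h s
  induction m with
  | zero =>
    refine ⟨1, C.one_mem_pc s (by simp), 0, (C.pc s _).zero_mem, by simp⟩
  | succ m ih =>
    obtain ⟨a, ha, b, hb, h2⟩ := ih
    refine ⟨a * α, ?_, b + a * σ.τ ^ m * β, (C.pc s _).add_mem hb ?_, ?_⟩
    · have h3 := C.pc_mul_mem s ha hα
      rwa [show -((m : ℤ) * σ.d) + -(σ.d : ℤ) = -(((m + 1 : ℕ) : ℤ) * σ.d) by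
        push_cast; ring] at h3
    · have h3 := C.pc_mul_mem s (C.pc_mul_mem s ha (pow_mem_pc C s (σ.hτ s) m)) hβ
      rwa [neg_add_cancel, zero_add] at h3
    · linear_combination h2 + a * σ.τ ^ m * h1

theorem pow (h : Cov σ σ') (s : Pc) (m l : ℕ) :
    ∃ α ∈ C.pc s (-((m : ℤ) * σ.d)), ∃ β ∈ C.pc s (-((l : ℤ) * σ'.d)),
      α * σ.τ ^ m + β * σ'.τ ^ l = 1 := by
  obtain ⟨α, hα, β, hβ, h1⟩ := h.pow_left s m
  induction l with
  | zero =>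
    refine ⟨0, (C.pc s _).zero_mem, 1, C.one_mem_pc s (by simp), by simp⟩
  | succ l ih =>
    obtain ⟨a, ha, b, hb, h2⟩ := ih
    refine ⟨a + b * σ'.τ ^ l * α, (C.pc s _).add_mem ha ?_, b * β, ?_, ?_⟩
    · have h3 := C.pc_mul_mem s (C.pc_mul_mem s hb (pow_mem_pc C s (σ'.hτ s) l)) hα
      rwa [neg_add_cancel, zero_add] at h3
    · have h3 := C.pc_mul_mem s hb hβ
      rwa [show -((l : ℤ) * σ'.d) + -(σ'.d : ℤ) = -(((l + 1 : ℕ) : ℤ) * σ'.d) by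
        push_cast; ring] at h3
    · linear_combination h2 + b * σ'.τ ^ l * h1

/-- the intersection of the two localisations is the piece -/
theorem inf (h : Cov σ σ') (j : R →ₐ[k] F) (s : Pc) (n : ℤ) {x : F} (hx : x ∈ σ.S j s n)
    (hx' : x ∈ σ'.S j s n) : ∃ r ∈ C.pc s n, j r = x := by
  obtain ⟨m, r, hr, h1⟩ := hx
  obtain ⟨l, r', hr', h2⟩ := hx'
  obtain ⟨α, hα, β, hβ, h3⟩ := h.pow s m l
  refine ⟨α * r + β * r', (C.pc s _).add_mem ?_ ?_, ?_⟩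
  · have h4 := C.pc_mul_mem s hα hr
    rwa [show -((m : ℤ) * σ.d) + (n + m * (σ.d : ℕ)) = n by ring] at h4
  · have h4 := C.pc_mul_mem s hβ hr'
    rwa [show -((l : ℤ) * σ'.d) + (n + l * (σ'.d : ℕ)) = n by ring] at h4
  · have h5 := congrArg j h3
    rw [map_add, map_mul, map_mul, map_pow, map_pow, map_one] at h5
    rw [map_add, map_mul, map_mul, ← h1, ← h2]
    linear_combination x * h5

/-- the sum of the two localisations is the localisation at the product -/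
theorem sup (h : Cov σ σ') (j : R →ₐ[k] F) (s : Pc) (n : ℤ) {x : F}
    (hx : x ∈ (σ.mul σ').S j s n) : ∃ a ∈ σ.S j s n, ∃ b ∈ σ'.S j s n, x = a + b := by
  obtain ⟨m, r, hr, h1⟩ := hx
  obtain ⟨α, hα, β, hβ, h3⟩ := h.pow s m m
  have h1' : (j σ.τ * j σ'.τ) ^ m * x = j r := by rw [← map_mul]; exact h1
  have hr' : r ∈ C.pc s (n + m * σ.d + m * σ'.d) := by
    have e : n + (m : ℤ) * ((σ.mul σ').d : ℕ) = n + m * σ.d + m * σ'.d := by
      change n + (m : ℤ) * ((σ.d + σ'.d : ℕ) : ℤ) = _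
      push_cast; ring
    rwa [e] at hr
  have h5 := congrArg j h3
  rw [map_add, map_mul, map_mul, map_pow, map_pow, map_one] at h5
  refine ⟨j β * (j σ'.τ) ^ m * x, ⟨m, β * r, ?_, ?_⟩, j α * (j σ.τ) ^ m * x, ⟨m, α * r, ?_, ?_⟩, ?_⟩
  · have h4 := C.pc_mul_mem s hβ hr'
    rwa [show -((m : ℤ) * σ'.d) + (n + m * σ.d + m * σ'.d) = n + m * (σ.d : ℕ) by ring] at h4
  · rw [map_mul, ← h1', mul_pow]
    ring
  · have h4 := C.pc_mul_mem s hα hr'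
    rwa [show -((m : ℤ) * σ.d) + (n + m * σ.d + m * σ'.d) = n + m * (σ'.d : ℕ) by ring] at h4
  · rw [map_mul, ← h1', mul_pow]
    ring
  · linear_combination (-x) * h5

end Cov

end H36.QX
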