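import Pool.Agent.H15.QX.CRing

/-!
# SepB : `RX` and `RW` are étale over `k[u]`, `RV` over `k[w']`
-/

set_option autoImplicit false

open scoped TensorProduct

namespace H36.QX

open H36.NX

variable {k : Type} [Field k] {t : k} {R : Type} [CommRing R] [Algebra k R]
  {F : Type} [Field F] [Algebra k F]

section

variable (C : QRing k t R) (j : R →ₐ[k] F)

theorem X_le_sub (A : Subalgebra k R) (hu : (C.u : R) ∈ A)
    (hw : C.w ∈ A) : ∀ x ∈ C.X, x ∈ A := by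
  have : C.X ≤ Subalgebra.toSubmodule A := by
    rw [QRing.X, Submodule.span_le]
    rintro _ ⟨p, rfl⟩
    show C.bas ((p.1 : ℤ), p.2) ∈ A
    rw [C.bas_eq, zpow_natCast, Units.val_pow_eq_pow_val]
    exact A.mul_mem (A.pow_mem hu _) (A.pow_mem hw _)
  exact fun x hx => this hx

theorem Y_le_sub (A : Subalgebra k R) (hv : C.v ∈ A)
    (hw : C.wp ∈ A) : ∀ x ∈ C.Y 0, x ∈ A := by
  have : C.Y 0 ≤ Subalgebra.toSubmodule A := by
    rw [QRing.Y, Submodule.span_le]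
    rintro _ ⟨p, rfl⟩
    show C.bas (0 - 2 * ((p.2 : ℕ) : ℤ) - (p.1 : ℤ), p.2) ∈ A
    have e2 : C.bas (0 - 2 * ((p.2 : ℕ) : ℤ) - (p.1 : ℤ), p.2)
        = C.v ^ p.1 * C.wp ^ (p.2 : ℕ) := by
      rw [C.bas_eq, QRing.wp, mul_pow, ← pow_mul, ← mul_assoc, ← pow_add, C.vpow_eq]
      congr 4
      push_cast
      ring
    rw [e2]
    exact A.mul_mem (A.pow_mem hv _) (A.pow_mem hw _)
  exact fun x hx => this hx

private theorem transc (j : R →ₐ[k] F) (B : Subalgebra k F) (x : F)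
    (h : x ∈ B) (hr : Transcendental k x) : Transcendental k (⟨x, h⟩ : B) := by
  intro hal
  apply hr
  have h1 : IsAlgebraic k (B.val ⟨x, h⟩) := hal.algHom B.val
  exact h1

private theorem all_mem (B : Subalgebra k F) (G : Subalgebra k B) (h : B ≤ G.map B.val) (b : B) :
    b ∈ G := by
  obtain ⟨g, hg, hgb⟩ := h b.2
  have : g = b := Subtype.ext hgb
  rw [← this]; exact hg

theorem ju_mem_RX : j (C.u : R) ∈ RX C j := (secU C).j_mem j Pc.X C.u_mem_X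
theorem ju_mem_RW : j (C.u : R) ∈ RW C j := RX_le_RW C j (ju_mem_RX C j)
theorem jwp_mem_RV : j C.wp ∈ RV C j := (secV C).j_mem j Pc.Y C.wp_mem_Y
theorem j_mem_RW (r : R) : j r ∈ RW C j :=
  (mem_RW_R C j 0 _).2 ((secW C).j_mem j Pc.R Submodule.mem_top)

theorem jQinv_mem_RX (hj : Function.Injective j) : (j C.Q)⁻¹ ∈ RX C j :=
  (mem_RX C j (-3) _).2 ((secU C).inv_mem j (jQ_ne C j hj) Pc.X)

theorem jτinv_mem_RW (hj : Function.Injective j) : (j (secW C).τ)⁻¹ ∈ RW C j :=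
  (mem_RW C j (-6) _).2 ((secW C).inv_mem j (jτW_ne C j hj) Pc.X)

theorem jominv_mem_RV (hj : Function.Injective j) : (j C.om)⁻¹ ∈ RV C j := by
  rw [mem_RV]
  refine ⟨1, (C.u : R) ^ 3, ?_, ?_⟩
  · have h := pow_mem_pc C Pc.Y (C.u_mem_pc Pc.Y (le_refl (1 : ℤ))) 3
    rw [secV_d]
    norm_num at h ⊢
    exact h
  · rw [pow_one, secV_τ, C.tau_eq, map_mul, mul_assoc, mul_inv_cancel₀ (jom_ne C j hj), mul_one]

variable [CharP k 2] (hj : Function.Injective j)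

include hj

theorem sepOver_RX : SepOver k (RX C j) ⟨j (C.u : R), ju_mem_RX C j⟩ := by
  have hw : j C.w ∈ RX C j := (secU C).j_mem j Pc.X C.w_mem_X
  have hQ : j C.Q ∈ RX C j := (secU C).j_mem j Pc.X C.Q_mem_X
  have hQi := jQinv_mem_RX C j hj
  obtain ⟨e, he, hgw⟩ := sepA_u (k := k) (t := t) (⟨j (C.u : R), ju_mem_RX C j⟩ : RX C j)
    ⟨j C.w, hw⟩ ⟨j C.Q, hQ⟩ ⟨(j C.Q)⁻¹, hQi⟩
    (Subtype.ext (by
      have h := congrArg j C.Q_eq
      simp only [map_add, map_pow, AlgHom.commutes] at h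
      simpa using h))
    (Subtype.ext (mul_inv_cancel₀ (jQ_ne C j hj)))
    (Subtype.ext (by
      have h := congrArg j C.rel'
      simp only [map_add, map_mul, map_pow, AlgHom.commutes] at h
      simpa using h))
  refine ⟨sepOver_inj k _ _ (transc j _ _ _ (C.transcendental_ju j hj)), e, he, ?_⟩
  have hall' : ∀ r ∈ C.X, j r ∈ (goodSub (⟨j (C.u : R), ju_mem_RX C j⟩ : RX C j) e).map
      (RX C j).val := by
    intro r hr
    exact X_le_sub C (((goodSub (⟨j (C.u : R), ju_mem_RX C j⟩ : RX C j) e).map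
      (RX C j).val).comap j) ⟨_, self_mem_goodSub _ _, rfl⟩ ⟨_, hgw, rfl⟩ r hr
  have hi : (j C.Q)⁻¹ ∈ (goodSub (⟨j (C.u : R), ju_mem_RX C j⟩ : RX C j) e).map
      (RX C j).val := by
    obtain ⟨g, hg, hgs⟩ := hall' C.Q C.Q_mem_X
    refine ⟨⟨(j C.Q)⁻¹, hQi⟩, inv_mem_goodSub _ _ g _ ?_ hg, rfl⟩
    apply Subtype.ext
    show (RX C j).val g * (j C.Q)⁻¹ = 1
    have : (RX C j).val g = j C.Q := hgs
    rw [this]
    exact mul_inv_cancel₀ (jQ_ne C j hj)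
  have hall := all_mem (RX C j) (goodSub (⟨j (C.u : R), ju_mem_RX C j⟩ : RX C j) e) ?_
  · exact fun b => hall b
  · rintro x ⟨m, r, hr, hx⟩
    have e1 : x = (j C.Q)⁻¹ ^ m * j r := by
      rw [← hx, secU_τ, ← mul_assoc, ← mul_pow, inv_mul_cancel₀ (jQ_ne C j hj), one_pow, one_mul]
    rw [e1]
    exact Subalgebra.mul_mem _ (Subalgebra.pow_mem _ hi m) (hall' r hr)

theorem sepOver_RW : SepOver k (RW C j) ⟨j (C.u : R), ju_mem_RW C j⟩ := by
  have hw : j C.w ∈ RW C j := j_mem_RW C j _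
  have hQ : j C.Q ∈ RW C j := j_mem_RW C j _
  have hQi : (j C.Q)⁻¹ ∈ RW C j := RX_le_RW C j (jQinv_mem_RX C j hj)
  have hτi := jτinv_mem_RW C j hj
  obtain ⟨e, he, hgw⟩ := sepA_u (k := k) (t := t) (⟨j (C.u : R), ju_mem_RW C j⟩ : RW C j)
    ⟨j C.w, hw⟩ ⟨j C.Q, hQ⟩ ⟨(j C.Q)⁻¹, hQi⟩
    (Subtype.ext (by
      have h := congrArg j C.Q_eq
      simp only [map_add, map_pow, AlgHom.commutes] at h
      simpa using h))
    (Subtype.ext (mul_inv_cancel₀ (jQ_ne C j hj)))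
    (Subtype.ext (by
      have h := congrArg j C.rel'
      simp only [map_add, map_mul, map_pow, AlgHom.commutes] at h
      simpa using h))
  refine ⟨sepOver_inj k _ _ (transc j _ _ _ (C.transcendental_ju j hj)), e, he, ?_⟩
  have hall' : ∀ r ∈ C.X, j r ∈ (goodSub (⟨j (C.u : R), ju_mem_RW C j⟩ : RW C j) e).map
      (RW C j).val := by
    intro r hr
    exact X_le_sub C (((goodSub (⟨j (C.u : R), ju_mem_RW C j⟩ : RW C j) e).map
      (RW C j).val).comap j) ⟨_, self_mem_goodSub _ _, rfl⟩ ⟨_, hgw, rfl⟩ r hr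
  have hi : (j (secW C).τ)⁻¹ ∈ (goodSub (⟨j (C.u : R), ju_mem_RW C j⟩ : RW C j) e).map
      (RW C j).val := by
    obtain ⟨g, hg, hgs⟩ := hall' (secW C).τ ((secW C).hτ Pc.X)
    refine ⟨⟨(j (secW C).τ)⁻¹, hτi⟩, inv_mem_goodSub _ _ g _ ?_ hg, rfl⟩
    apply Subtype.ext
    show (RW C j).val g * (j (secW C).τ)⁻¹ = 1
    have : (RW C j).val g = j (secW C).τ := hgs
    rw [this]
    exact mul_inv_cancel₀ (jτW_ne C j hj)
  have hall := all_mem (RW C j) (goodSub (⟨j (C.u : R), ju_mem_RW C j⟩ : RW C j) e) ?_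
  · exact fun b => hall b
  · rintro x ⟨m, r, hr, hx⟩
    have e1 : x = (j (secW C).τ)⁻¹ ^ m * j r := by
      rw [← hx, ← mul_assoc, ← mul_pow, inv_mul_cancel₀ (jτW_ne C j hj), one_pow, one_mul]
    rw [e1]
    exact Subalgebra.mul_mem _ (Subalgebra.pow_mem _ hi m) (hall' r hr)

theorem sepOver_RV : SepOver k (RV C j) ⟨j C.wp, jwp_mem_RV C j⟩ := by
  have hm : ∀ r ∈ C.Y 0, j r ∈ RV C j := fun r hr => (secV C).j_mem j Pc.Y hr
  have hoi := jominv_mem_RV C j hj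
  obtain ⟨e, he, hgv⟩ := sepA_w' (k := k) (t := t) (⟨j C.v, hm _ C.v_mem_Y0⟩ : RV C j)
    ⟨j C.wp, jwp_mem_RV C j⟩ ⟨j C.qp, hm _ C.qp_mem_Y⟩ ⟨j C.om, hm _ C.om_mem_Y⟩
    ⟨(j C.om)⁻¹, hoi⟩
    (Subtype.ext (by
      have h := congrArg j C.qp_eq
      simp only [map_add, map_mul, map_pow, map_one, AlgHom.commutes] at h
      simpa using h))
    (Subtype.ext (by
      have h := congrArg j C.om_eq
      simp only [map_add, map_pow] at h
      simpa using h))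
    (Subtype.ext (mul_inv_cancel₀ (jom_ne C j hj)))
    (Subtype.ext (by
      have h := congrArg j C.rel_p
      simp only [map_add, map_mul, map_pow, AlgHom.commutes] at h
      simpa using h))
  refine ⟨sepOver_inj k _ _ (transc j _ _ _ (C.transcendental_jwp j hj)), e, he, ?_⟩
  have hall' : ∀ r ∈ C.Y 0, j r ∈ (goodSub (⟨j C.wp, jwp_mem_RV C j⟩ : RV C j) e).map
      (RV C j).val := by
    intro r hr
    exact Y_le_sub C (((goodSub (⟨j C.wp, jwp_mem_RV C j⟩ : RV C j) e).map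
      (RV C j).val).comap j) ⟨_, hgv, rfl⟩ ⟨_, self_mem_goodSub _ _, rfl⟩ r hr
  have hi : (j C.om)⁻¹ ∈ (goodSub (⟨j C.wp, jwp_mem_RV C j⟩ : RV C j) e).map
      (RV C j).val := by
    obtain ⟨g, hg, hgs⟩ := hall' C.om C.om_mem_Y
    refine ⟨⟨(j C.om)⁻¹, hoi⟩, inv_mem_goodSub _ _ g _ ?_ hg, rfl⟩
    apply Subtype.ext
    show (RV C j).val g * (j C.om)⁻¹ = 1
    have : (RV C j).val g = j C.om := hgs
    rw [this]
    exact mul_inv_cancel₀ (jom_ne C j hj)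
  have hall := all_mem (RV C j) (goodSub (⟨j C.wp, jwp_mem_RV C j⟩ : RV C j) e) ?_
  · exact fun b => hall b
  · rintro x ⟨m, r, hr, hx⟩
    have hr' : r ∈ C.Y (0 + m * (3 : ℕ)) := hr
    have h1 : C.v ^ (3 * m) * r ∈ C.Y 0 := by
      have h2 := C.mul_mem_Y (C.vpow_mem_Y (3 * m) (m := -((3 * m : ℕ) : ℤ)) le_rfl) hr'
      refine C.Y_mono ?_ h2
      push_cast
      linarith
    have e1 : x = (j C.om)⁻¹ ^ m * j (C.v ^ (3 * m) * r) := by
      have h3 : j (C.u : R) * j C.v = 1 := by rw [← map_mul, C.uv, map_one]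
      have h4 : j C.om * (j C.om)⁻¹ = 1 := mul_inv_cancel₀ (jom_ne C j hj)
      rw [map_mul, ← hx, secV_τ, C.tau_eq, map_mul, map_pow, map_pow, pow_mul]
      have h5 : (j C.om)⁻¹ ^ m * ((j C.v ^ 3) ^ m * ((j (C.u : R) ^ 3 * j C.om) ^ m * x))
          = ((j C.om * (j C.om)⁻¹) * (j (C.u : R) * j C.v) ^ 3) ^ m * x := by ring
      rw [h5, h3, h4]
      simp
    rw [e1]
    exact Subalgebra.mul_mem _ (Subalgebra.pow_mem _ hi m) (hall' _ h1)

end

end H36.QX
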